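import Pool.Agent.P8H79.KR.Stm

set_option autoImplicit false

/-! Package A of PROJECT KR (helper79), by helper52: extension of `k`-continuous functions from the
powers of the Sigma-product. -/

namespace Pool.Agent.P8H52.KR

open Topology Set Filter Pool.Agent.P8H79.KR

namespace PA

lemma countable_Iio (a : W) : (Iio a).Countable :=
  (Cardinal.countable_iff_lt_aleph_one _).2 (by simpa using Cardinal.mk_Iio_lt a)

lemma uncountable_W : ¬ (univ : Set W).Countable := by
  intro h
  have h4 := Cardinal.le_aleph0_iff_set_countable.2 h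
  rw [Cardinal.mk_univ, Cardinal.mk_ord_toType] at h4
  exact absurd h4 (not_le.2 Cardinal.aleph0_lt_aleph_one)

lemma nonempty_W : Nonempty W := by
  by_contra h
  rw [not_nonempty_iff] at h
  apply uncountable_W
  rw [univ_eq_empty_iff.2 h]
  exact countable_empty

lemma exists_gt_W (a : W) : ∃ b : W, a < b := by
  by_contra hcon
  push Not at hcon
  apply uncountable_W
  have h1 : (univ : Set W) ⊆ insert a (Iio a) := by
    intro b _
    rcases (hcon b).eq_or_lt with h | h
    · exact Or.inl h
    · exact Or.inr h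
  exact ((countable_Iio a).insert _).mono h1

section

variable {n : ℕ}

/-- the points all of whose components are in `XS e` -/
def XJ (e : ℕ → W) (n : ℕ) : Set (Fin n → Y) := {x | ∀ j, x j ∈ XS e}

/-- the power of the Sigma-product -/
def SJ (n : ℕ) : Set (Fin n → Y) := {x | ∀ j, {i | x j i = true}.Countable}

lemma SJ_sub (e : ℕ → W) : SJ n ⊆ XJ e n := fun _ hx j => Or.inl (hx j)

open Classical in
/-- the extension by zero -/
noncomputable def fe (e : ℕ → W) (f : (Fin n → XS e) → ℝ) (x : Fin n → Y) : ℝ :=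
  if h : ∀ j, x j ∈ XS e then f (fun j => ⟨x j, h j⟩) else 0

/-- the inclusion of the powers -/
def emb (e : ℕ → W) (p : Fin n → XS e) : Fin n → Y := fun j => (p j : Y)

lemma fe_emb (e : ℕ → W) (f : (Fin n → XS e) → ℝ) (p : Fin n → XS e) : fe e f (emb e p) = f p := by
  unfold fe
  have h : ∀ j, emb e p j ∈ XS e := fun j => (p j).2
  rw [dif_pos h]
  rfl

lemma emb_inducing (e : ℕ → W) : IsInducing (emb (n := n) e) := by
  unfold emb
  exact IsInducing.piMap (f := fun (_ : Fin n) (p : XS e) => (p : Y)) fun _ => IsInducing.subtypeVal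

lemma range_emb (e : ℕ → W) : range (emb (n := n) e) = XJ e n := by
  ext x
  constructor
  · rintro ⟨p, rfl⟩ j
    exact (p j).2
  · intro hx
    exact ⟨fun j => ⟨x j, hx j⟩, rfl⟩

lemma fe_cont (e : ℕ → W) (f : (Fin n → XS e) → ℝ) (hf : KCont f) (K : Set (Fin n → Y)) (hK : IsCompact K)
    (hKX : K ⊆ XJ e n) : ContinuousOn (fe e f) K := by
  have hr : K ⊆ range (emb (n := n) e) := by
    rw [range_emb]
    exact hKX
  have hK' : IsCompact (emb (n := n) e ⁻¹' K) := ((emb_inducing e).isCompact_preimage_iff hr).2 hK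
  have h1 := hf _ hK'
  intro x hx
  obtain ⟨p, rfl⟩ := hr hx
  have h2 := h1 p hx
  have h3 : map (emb e) (𝓝[emb e ⁻¹' K] p) = 𝓝[K] (emb e p) := by
    rw [(emb_inducing e).map_nhdsWithin_eq, image_preimage_eq_of_subset hr]
  unfold ContinuousWithinAt
  rw [← h3, tendsto_map'_iff, fe_emb]
  exact h2.tendsto.congr fun q => (fe_emb e f q).symm

/-- the points with support in `A` -/
def KA (A : Set W) (n : ℕ) : Set (Fin n → Y) := {x | ∀ j i, i ∉ A → x j i = false}

lemma cont_coord (j : Fin n) (i : W) : Continuous (fun x : Fin n → Y => x j i) :=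
  (continuous_apply i).comp (continuous_apply j)

lemma KA_compact (A : Set W) : IsCompact (KA A n) := by
  apply IsClosed.isCompact
  have h1 : KA A n = ⋂ (j : Fin n) (i : W) (_ : i ∉ A), {x | x j i = false} := by
    ext x
    simp only [KA, mem_setOf_eq, mem_iInter]
  rw [h1]
  exact isClosed_iInter fun j => isClosed_iInter fun i => isClosed_iInter fun _ =>
    isClosed_eq (cont_coord j i) continuous_const

lemma KA_SJ {A : Set W} (hA : A.Countable) : KA A n ⊆ SJ n := by
  intro x hx j
  refine hA.mono fun i hi => ?_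
  by_contra hcon
  have h1 := hx j i hcon
  have h2 : x j i = true := hi
  rw [h1] at h2
  exact absurd h2 (by simp)

open Classical in
/-- the restriction to the coordinates in `A` -/
noncomputable def rA (A : Set W) (x : Fin n → Y) : Fin n → Y := fun j i => if i ∈ A then x j i else false

lemma rA_mem (A : Set W) (x : Fin n → Y) : rA A x ∈ KA A n := by
  intro j i hi
  unfold rA
  rw [if_neg hi]

lemma rA_cont (A : Set W) : Continuous (rA (n := n) A) := by
  refine continuous_pi fun j => continuous_pi fun i => ?_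
  unfold rA
  by_cases hi : i ∈ A
  · simp only [hi, if_true]
    exact cont_coord j i
  · simp only [hi, if_false]
    exact continuous_const

lemma rA_SJ (A : Set W) {x : Fin n → Y} (hx : x ∈ SJ n) : rA A x ∈ SJ n := by
  intro j
  refine (hx j).mono fun i hi => ?_
  have h1 : rA A x j i = true := hi
  unfold rA at h1
  by_cases hiA : i ∈ A
  · rw [if_pos hiA] at h1
    exact h1
  · rw [if_neg hiA] at h1
    exact absurd h1 (by simp)

/-- the support of a point -/
def sp (x : Fin n → Y) : Set W := ⋃ j, {i | x j i = true}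

lemma sp_countable {x : Fin n → Y} (hx : x ∈ SJ n) : (sp x).Countable := countable_iUnion hx

lemma mem_KA_of_sp {A : Set W} {x : Fin n → Y} (h : sp x ⊆ A) : x ∈ KA A n := by
  intro j i hi
  by_contra hcon
  apply hi
  apply h
  refine mem_iUnion.2 ⟨j, ?_⟩
  show x j i = true
  simpa using hcon

/-- Step 1 -/
lemma step1 (F : (Fin n → Y) → ℝ) (hF : ∀ A : Set W, A.Countable → ContinuousOn F (KA A n)) (ε : ℝ) (hε : 0 < ε) :
    ∃ A : Set W, A.Countable ∧ ∀ x ∈ SJ n, ∀ y ∈ SJ n, (∀ j, ∀ i ∈ A, x j i = y j i) → |F x - F y| ≤ ε := by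
  by_contra hcon
  push Not at hcon
  choose! xx hx yy hy hxy hlt using hcon
  let st : {A : Set W // A.Countable} → {A : Set W // A.Countable} := fun A =>
    ⟨A.1 ∪ (sp (xx A.1) ∪ sp (yy A.1)), A.2.union ((sp_countable (hx _ A.2)).union (sp_countable (hy _ A.2)))⟩
  let As : ℕ → {A : Set W // A.Countable} := fun k => st^[k] ⟨∅, countable_empty⟩
  have hsucc : ∀ k, As (k + 1) = st (As k) := fun k => Function.iterate_succ_apply' _ _ _
  have hmono : Monotone fun k => (As k).1 := by
    refine monotone_nat_of_le_succ fun k => ?_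
    rw [hsucc]
    exact subset_union_left
  set B : Set W := ⋃ k, (As k).1 with hB
  have hBc : B.Countable := countable_iUnion fun k => (As k).2
  have hsub : ∀ k, (As k).1 ⊆ B := fun k => subset_iUnion (fun k => (As k).1) k
  have hxB : ∀ k, xx (As k).1 ∈ KA B n := by
    intro k
    refine mem_KA_of_sp (subset_trans ?_ (hsub (k + 1)))
    rw [hsucc]
    exact subset_union_left.trans subset_union_right
  have hyB : ∀ k, yy (As k).1 ∈ KA B n := by
    intro k
    refine mem_KA_of_sp (subset_trans ?_ (hsub (k + 1)))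
    rw [hsucc]
    exact subset_union_right.trans subset_union_right
  set u : Ultrafilter ℕ := hyperfilter ℕ with hu
  have hle : (u : Filter ℕ) ≤ atTop := Nat.hyperfilter_le_atTop
  obtain ⟨x, hxK, hxl⟩ := (KA_compact B).ultrafilter_le_nhds (u.map fun k => xx (As k).1)
    (le_principal_iff.2 (by
      rw [Ultrafilter.mem_coe, Ultrafilter.mem_map]
      exact univ_mem' hxB))
  obtain ⟨y, hyK, hyl⟩ := (KA_compact B).ultrafilter_le_nhds (u.map fun k => yy (As k).1)
    (le_principal_iff.2 (by
      rw [Ultrafilter.mem_coe, Ultrafilter.mem_map]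
      exact univ_mem' hyB))
  have hxt : Tendsto (fun k => xx (As k).1) u (𝓝 x) := hxl
  have hyt : Tendsto (fun k => yy (As k).1) u (𝓝 y) := hyl
  have hxy' : x = y := by
    funext j i
    by_cases hi : i ∈ B
    · obtain ⟨k, hk⟩ := mem_iUnion.1 hi
      have h1 : Tendsto (fun k => xx (As k).1 j i) u (𝓝 (x j i)) := ((cont_coord j i).tendsto x).comp hxt
      have h2 : Tendsto (fun k => yy (As k).1 j i) u (𝓝 (y j i)) := ((cont_coord j i).tendsto y).comp hyt
      have h3 : ∀ᶠ m in (u : Filter ℕ), xx (As m).1 j i = yy (As m).1 j i := by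
        filter_upwards [hle (eventually_ge_atTop k)] with m hm
        exact hxy _ (As m).2 j i (hmono hm hk)
      exact tendsto_nhds_unique (h1.congr' h3) h2
    · rw [hxK j i hi, hyK j i hi]
  have hFx : Tendsto (fun k => F (xx (As k).1)) u (𝓝 (F x)) :=
    (hF B hBc x hxK).tendsto.comp (tendsto_nhdsWithin_iff.2 ⟨hxt, Eventually.of_forall hxB⟩)
  have hFy : Tendsto (fun k => F (yy (As k).1)) u (𝓝 (F y)) :=
    (hF B hBc y hyK).tendsto.comp (tendsto_nhdsWithin_iff.2 ⟨hyt, Eventually.of_forall hyB⟩)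
  have hd : Tendsto (fun k => |F (xx (As k).1) - F (yy (As k).1)|) u (𝓝 |F x - F y|) := (hFx.sub hFy).abs
  rw [hxy', sub_self, abs_zero] at hd
  have he : ∀ᶠ k in (u : Filter ℕ), |F (xx (As k).1) - F (yy (As k).1)| < ε := hd.eventually_lt_const hε
  obtain ⟨k, hk⟩ := he.exists
  exact absurd hk (not_lt.2 (hlt _ (As k).2).le)

/-- Step 2 -/
lemma step2 (F : (Fin n → Y) → ℝ) (hF : ∀ A : Set W, A.Countable → ContinuousOn F (KA A n)) :
    ∃ A : Set W, A.Countable ∧ ∀ x ∈ SJ n, F x = F (rA A x) := by
  choose A hA hA2 using fun m : ℕ => step1 F hF (1 / ((m : ℝ) + 1)) (by positivity)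
  refine ⟨⋃ m, A m, countable_iUnion hA, fun x hx => ?_⟩
  have h1 : ∀ m : ℕ, |F x - F (rA (⋃ m, A m) x)| ≤ 1 / ((m : ℝ) + 1) := by
    intro m
    refine hA2 m x hx _ (rA_SJ _ hx) fun j i hi => ?_
    unfold rA
    rw [if_pos (mem_iUnion.2 ⟨m, hi⟩)]
  have h2 : |F x - F (rA (⋃ m, A m) x)| ≤ 0 :=
    ge_of_tendsto' tendsto_one_div_add_atTop_nhds_zero_nat h1
  have h3 := abs_eq_zero.1 (le_antisymm h2 (abs_nonneg _))
  linarith

/-- Step 3: the compact set of the initial parts of `p` -/
def Kp (p : Fin n → Y) : Set (Fin n → Y) :=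
  {q | (∀ j i, q j i = true → p j i = true) ∧
    ∀ j j' i i', i ≤ i' → q j' i' = true → q j i = p j i}

lemma Kp_compact (p : Fin n → Y) : IsCompact (Kp p) := by
  apply IsClosed.isCompact
  have h1 : Kp p = (⋂ (j : Fin n) (i : W), {x | x j i = true → p j i = true}) ∩
      ⋂ (j : Fin n) (j' : Fin n) (i : W) (i' : W) (_ : i ≤ i'), {x | x j' i' = true → x j i = p j i} := by
    ext x
    simp only [Kp, mem_setOf_eq, mem_inter_iff, mem_iInter]
  rw [h1]
  refine IsClosed.inter (isClosed_iInter fun j => isClosed_iInter fun i => ?_)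
    (isClosed_iInter fun j => isClosed_iInter fun j' => isClosed_iInter fun i => isClosed_iInter fun i' =>
      isClosed_iInter fun _ => ?_)
  · exact (isClosed_discrete {b : Bool | b = true → p j i = true}).preimage (cont_coord j i)
  · exact (isClosed_discrete {b : Bool × Bool | b.1 = true → b.2 = p j i}).preimage
      ((cont_coord j' i').prodMk (cont_coord j i))

lemma Kp_sub (e : ℕ → W) {p : Fin n → Y} (hp : p ∈ XJ e n) : Kp p ⊆ XJ e n := by
  intro q hq
  by_cases hqp : q = p
  · rw [hqp]
    exact hp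
  · apply SJ_sub e
    obtain ⟨j, hj⟩ := Function.ne_iff.1 hqp
    obtain ⟨i, hi⟩ := Function.ne_iff.1 hj
    intro j'
    refine (countable_Iio i).mono fun i' hi' => ?_
    show i' < i
    by_contra hcon
    exact hi (hq.2 j j' i i' (not_lt.1 hcon) hi')

end

end PA

open PA in
theorem sA : S_A := by
  intro e n f hf
  set F := fe e f with hFdef
  have hFc : ∀ K : Set (Fin n → Y), IsCompact K → K ⊆ XJ e n → ContinuousOn F K := fun K hK hKX =>
    fe_cont e f hf K hK hKX
  have hFA : ∀ A : Set W, A.Countable → ContinuousOn F (KA A n) := fun A hA =>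
    hFc _ (KA_compact A) ((KA_SJ hA).trans (SJ_sub e))
  obtain ⟨A, hA, hFr⟩ := step2 F hFA
  have hG : Continuous (fun y : Fin n → Y => F (rA A y)) :=
    (hFA A hA).comp_continuous (rA_cont A) (rA_mem A)
  refine ⟨fun y => F (rA A y), hG, fun x => ?_⟩
  set p : Fin n → Y := emb e x with hp
  have hpX : p ∈ XJ e n := fun j => (x j).2
  have h1 : F p = f x := fe_emb e f x
  rw [← h1]
  show F p = F (rA A p)
  have := nonempty_W
  have : NoMaxOrder W := ⟨exists_gt_W⟩
  have hq : ∀ b : W, rA (Iio b) p ∈ Kp p := by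
    intro b
    constructor
    · intro j i h
      unfold rA at h
      by_cases hi : i ∈ Iio b
      · rwa [if_pos hi] at h
      · rw [if_neg hi] at h
        exact absurd h (by simp)
    · intro j j' i i' hii h
      have hi' : i' ∈ Iio b := by
        by_contra hcon
        unfold rA at h
        rw [if_neg hcon] at h
        exact absurd h (by simp)
      unfold rA
      rw [if_pos (show i ∈ Iio b from lt_of_le_of_lt hii hi')]
  have hpK : p ∈ Kp p := ⟨fun _ _ h => h, fun _ _ _ _ _ _ => rfl⟩
  have hqt : Tendsto (fun b : W => rA (Iio b) p) atTop (𝓝 p) := by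
    rw [tendsto_pi_nhds]
    intro j
    rw [tendsto_pi_nhds]
    intro i
    refine tendsto_const_nhds.congr' ?_
    filter_upwards [eventually_gt_atTop i] with b hb
    unfold rA
    rw [if_pos (show i ∈ Iio b from hb)]
  have hcK := hFc _ (Kp_compact p) (Kp_sub e hpX)
  have hF1 : Tendsto (fun b : W => F (rA (Iio b) p)) atTop (𝓝 (F p)) :=
    (hcK p hpK).tendsto.comp (tendsto_nhdsWithin_iff.2 ⟨hqt, Eventually.of_forall hq⟩)
  have hF2 : Tendsto (fun b : W => F (rA A (rA (Iio b) p))) atTop (𝓝 (F (rA A p))) :=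
    (hG.tendsto p).comp hqt
  refine tendsto_nhds_unique hF1 (hF2.congr fun b => ?_)
  exact (hFr _ (KA_SJ (countable_Iio b) (rA_mem _ p))).symm

end Pool.Agent.P8H52.KR
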