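import Pool.Agent.P8H79.KR.Stm

set_option autoImplicit false

/-! Package D of PROJECT KR (helper79), by helper52: Cauchy sequences. -/

namespace Pool.Agent.P8H52.KR

open Topology Set Filter Pool.Agent.P8H79.KR

theorem sD : S_D := by
  intro Y _ _ _ X hX hE T hT hι z y hz U hU
  let _ : TopologicalSpace (X →₀ ℤ) := T
  have _ : IsTopologicalAddGroup (X →₀ ℤ) := hT
  let _ : UniformSpace (X →₀ ℤ) := IsTopologicalAddGroup.rightUniformSpace (X →₀ ℤ)
  obtain ⟨φ, hφ, hφ0, hφ1⟩ := CompletelyRegularSpace.completely_regular (0 : X →₀ ℤ) (interior U)ᶜ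
    isOpen_interior.isClosed_compl (by
      rw [mem_compl_iff, not_not]
      exact mem_interior_iff_mem_nhds.2 hU)
  have hF : Continuous (fun p : Fin 2 → X => ((φ (ι X (p 0) - ι X (p 1)) : unitInterval) : ℝ)) :=
    continuous_subtype_val.comp (hφ.comp
      ((hι.comp (continuous_apply 0)).sub (hι.comp (continuous_apply 1))))
  obtain ⟨G, hG, hGF⟩ := hE 2 _ (fun K _ => hF.continuousOn)
  have h0 : ∀ w : Y, G (fun _ => w) = 0 := by
    intro w
    have hc : IsClosed {w : Y | G (fun _ => w) = 0} :=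
      isClosed_eq (hG.comp (continuous_pi fun _ => continuous_id)) continuous_const
    have hs : X ⊆ {w : Y | G (fun _ => w) = 0} := by
      intro x hx
      have := hGF (fun _ => ⟨x, hx⟩)
      simp only [sub_self, hφ0] at this
      exact this.symm
    exact hc.closure_subset_iff.2 hs (hX w)
  have ht : Tendsto (fun q : ℕ × ℕ => G (fun j : Fin 2 => if j = 0 then (z q.1 : Y) else z q.2))
      (atTop ×ˢ atTop) (𝓝 0) := by
    rw [← h0 y]
    refine (hG.tendsto _).comp ?_
    rw [tendsto_pi_nhds]
    intro j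
    by_cases hj : j = 0
    · simp only [hj, if_true]
      exact hz.comp tendsto_fst
    · simp only [hj, if_false]
      exact hz.comp tendsto_snd
  have he : ∀ᶠ q : ℕ × ℕ in atTop ×ˢ atTop,
      G (fun j : Fin 2 => if j = 0 then (z q.1 : Y) else z q.2) < 1 := ht.eventually_lt_const one_pos
  rw [prod_atTop_atTop_eq, eventually_atTop] at he
  obtain ⟨⟨N₁, N₂⟩, hN⟩ := he
  refine ⟨max N₁ N₂, fun n m hn hm => ?_⟩
  by_contra hcon
  have h1 := hφ1 (show ι X (z n) - ι X (z m) ∈ (interior U)ᶜ from fun h => hcon (interior_subset h))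
  have h2 := hN (n, m) ⟨(le_max_left _ _).trans hn, (le_max_right _ _).trans hm⟩
  have h3 := hGF (fun j : Fin 2 => if j = 0 then z n else z m)
  simp only [if_true, Fin.isValue, one_ne_zero, if_false] at h3
  rw [h1] at h3
  have h4 : (fun j : Fin 2 => (((if j = 0 then z n else z m : X)) : Y)) =
      fun j : Fin 2 => if j = 0 then (z n : Y) else z m := by
    funext j
    split_ifs <;> rfl
  rw [h4] at h3
  simp only [Pi.one_apply, Set.Icc.coe_one] at h3
  rw [← h3] at h2
  exact lt_irrefl _ h2

end Pool.Agent.P8H52.KR
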